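import Pool.Agent.H95.FI.Defs

open MvPolynomial

namespace H56.FI
open H95.FG H95.FI

theorem maca_aux (a : ℕ) : ∀ (t : ℕ) (V : Submodule ℂ (Pn a)), FiniteDimensional ℂ V →
    t ≤ Module.finrank ℂ V → ∃ g : Fin t → Pn a, (∀ j, g j ∈ V) ∧ (∀ j, g j ≠ 0) ∧
    Function.Injective (fun j => (MonomialOrder.lex : MonomialOrder (Fin a)).degree (g j)) := by
  intro t
  induction t with
  | zero =>
    intro V _ _
    exact ⟨fun j => j.elim0, fun j => j.elim0, fun j => j.elim0, fun j => j.elim0⟩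
  | succ t ih =>
    intro V hV ht
    have hVne : V ≠ ⊥ := by
      rintro rfl
      rw [finrank_bot] at ht
      omega
    obtain ⟨g0, hg0, hg0ne⟩ := (Submodule.ne_bot_iff V).1 hVne
    obtain ⟨μ, hμ⟩ : ∃ μ, μ = (MonomialOrder.lex : MonomialOrder (Fin a)).degree g0 := ⟨_, rfl⟩
    have hrk : Module.finrank ℂ (LinearMap.range
        ((MvPolynomial.lcoeff ℂ μ : Pn a →ₗ[ℂ] ℂ).domRestrict V)) + Module.finrank ℂ
        (LinearMap.ker ((MvPolynomial.lcoeff ℂ μ : Pn a →ₗ[ℂ] ℂ).domRestrict V)) =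
        Module.finrank ℂ V := LinearMap.finrank_range_add_finrank_ker
      ((MvPolynomial.lcoeff ℂ μ : Pn a →ₗ[ℂ] ℂ).domRestrict V)
    have hr1 : Module.finrank ℂ (LinearMap.range
        ((MvPolynomial.lcoeff ℂ μ : Pn a →ₗ[ℂ] ℂ).domRestrict V)) ≤ 1 := by
      have := Submodule.finrank_le (LinearMap.range
        ((MvPolynomial.lcoeff ℂ μ : Pn a →ₗ[ℂ] ℂ).domRestrict V))
      rwa [Module.finrank_self] at this
    have hV' : Module.finrank ℂ ((LinearMap.ker
      ((MvPolynomial.lcoeff ℂ μ : Pn a →ₗ[ℂ] ℂ).domRestrict V)).map V.subtype) =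
      Module.finrank ℂ
        (LinearMap.ker ((MvPolynomial.lcoeff ℂ μ : Pn a →ₗ[ℂ] ℂ).domRestrict V)) :=
      Submodule.finrank_map_subtype_eq V (LinearMap.ker
      ((MvPolynomial.lcoeff ℂ μ : Pn a →ₗ[ℂ] ℂ).domRestrict V))
    have hfd : FiniteDimensional ℂ ((LinearMap.ker
      ((MvPolynomial.lcoeff ℂ μ : Pn a →ₗ[ℂ] ℂ).domRestrict V)).map V.subtype) :=
      inferInstance
    obtain ⟨g, hg1, hg2, hg3⟩ := ih _ hfd (by rw [hV']; omega)
    have hgV : ∀ j, g j ∈ V ∧ coeff μ (g j) = 0 := by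
      intro j
      obtain ⟨y, hy, hyg⟩ := hg1 j
      rw [← hyg]
      refine ⟨y.2, ?_⟩
      exact LinearMap.mem_ker.1 hy
    refine ⟨Fin.cons g0 g, ?_, ?_, ?_⟩
    · intro j
      refine Fin.cases ?_ (fun j => ?_) j
      · exact hg0
      · exact (hgV j).1
    · intro j
      refine Fin.cases ?_ (fun j => ?_) j
      · exact hg0ne
      · exact hg2 j
    · have hne : ∀ j, (MonomialOrder.lex : MonomialOrder (Fin a)).degree (g j) ≠
          (MonomialOrder.lex : MonomialOrder (Fin a)).degree g0 := by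
        intro j h
        have h1 := (MonomialOrder.leadingCoeff_ne_zero_iff
          (m := (MonomialOrder.lex : MonomialOrder (Fin a)))).2 (hg2 j)
        apply h1
        unfold MonomialOrder.leadingCoeff
        rw [h, ← hμ]
        exact (hgV j).2
      intro x y
      refine Fin.cases ?_ (fun x => ?_) x
      · refine Fin.cases ?_ (fun y => ?_) y
        · intro _; rfl
        · intro h
          exact absurd h.symm (hne y)
      · refine Fin.cases ?_ (fun y => ?_) y
        · intro h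
          exact absurd h (hne x)
        · intro h
          have h7 : x = y := hg3 h
          exact congrArg Fin.succ h7

theorem t_MACA : S_MACA := by
  intro a t f hf
  have hfd : FiniteDimensional ℂ (Submodule.span ℂ (Set.range f)) :=
    FiniteDimensional.span_of_finite ℂ (Set.finite_range f)
  refine maca_aux a t _ hfd ?_
  rw [finrank_span_eq_card hf, Fintype.card_fin]

theorem t_MAC (hA : S_MACA) (hB : S_MACB) (hC : S_MACC) : S_MAC := by
  intro a t f hf
  obtain ⟨g, hg1, hg2, hg3⟩ := hA a t f hf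
  have h1 := hB a t _ hg3
  have hne : ∀ x : Fin a × Fin t, (X x.1 * g x.2 : Pn a) ≠ 0 := fun x =>
    mul_ne_zero (X_ne_zero x.1) (hg2 x.2)
  have h2 := hC a (Fin a × Fin t) (fun x => X x.1 * g x.2) hne
  have hdeg : ∀ x : Fin a × Fin t, (MonomialOrder.lex : MonomialOrder (Fin a)).degree
      (X x.1 * g x.2 : Pn a) = Finsupp.single x.1 1 +
        (MonomialOrder.lex : MonomialOrder (Fin a)).degree (g x.2) := by
    intro x
    rw [MonomialOrder.degree_mul (X_ne_zero x.1) (hg2 x.2), MonomialOrder.degree_X]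
  simp only [hdeg] at h2
  have h3 : Submodule.span ℂ (Set.range fun x : Fin a × Fin t => (X x.1 * g x.2 : Pn a)) ≤
      Submodule.span ℂ (Set.range fun x : Fin a × Fin t => (X x.1 * f x.2 : Pn a)) := by
    rw [Submodule.span_le]
    rintro _ ⟨x, rfl⟩
    have h4 := hg1 x.2
    have h5 : (X x.1 * g x.2 : Pn a) ∈
        (Submodule.span ℂ (Set.range f)).map (LinearMap.mulLeft ℂ (X x.1 : Pn a)) :=
      ⟨g x.2, h4, rfl⟩
    rw [Submodule.map_span] at h5
    refine Submodule.span_mono ?_ h5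
    rintro _ ⟨_, ⟨j, rfl⟩, rfl⟩
    exact ⟨(x.1, j), rfl⟩
  haveI : FiniteDimensional ℂ
      (Submodule.span ℂ (Set.range fun x : Fin a × Fin t => (X x.1 * f x.2 : Pn a))) :=
    FiniteDimensional.span_of_finite ℂ (Set.finite_range _)
  have h6 : Module.finrank ℂ
      (Submodule.span ℂ (Set.range fun x : Fin a × Fin t => (X x.1 * g x.2 : Pn a))) ≤
      Module.finrank ℂ
      (Submodule.span ℂ (Set.range fun x : Fin a × Fin t => (X x.1 * f x.2 : Pn a))) :=
    Submodule.finrank_mono h3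
  exact h1.trans (Nat.add_le_add_right (h2.trans h6) _)

end H56.FI
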